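import Pool.Agent.W793.SCH.Stm

/-!
# Project SCH, part WC: the centred k-point function
-/

open MeasureTheory Matrix Filter
open scoped Topology

namespace Pool.Agent.W75.SCH

open Pool.Agent.W793.SCH

noncomputable section

lemma haf_nil {ι : Type*} (A : ι → ι → ℝ) : haf A [] = 1 := by
  rw [haf]

lemma haf_cons {ι : Type*} (A : ι → ι → ℝ) (a : ι) (l : List ι) :
    haf A (a :: l) = ∑ i : Fin l.length, A a (l.get i) * haf A (l.eraseIdx i) := by
  rw [haf]

lemma haf_pair {ι : Type*} (A : ι → ι → ℝ) (a b : ι) : haf A [a, b] = A a b := by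
  rw [haf_cons]
  show (∑ i : Fin 1, A a ([b].get i) * haf A ([b].eraseIdx i)) = _
  rw [Fin.sum_univ_one]
  show A a b * haf A [] = _
  rw [haf_nil, mul_one]

lemma haf_bound {ι : Type*} (A : ι → ι → ℝ) {M : ℝ} (hM : 1 ≤ M) (hA : ∀ a b, |A a b| ≤ M) :
    ∀ (n : ℕ) (L : List ι), L.length = n → |haf A L| ≤ (n.factorial : ℝ) * M ^ (n / 2) := by
  intro n
  induction n using Nat.strong_induction_on with
  | _ n ih =>
    intro L hL
    cases L with
    | nil =>
      simp only [List.length_nil] at hL
      subst hL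
      simp [haf_nil]
    | cons a l =>
      rw [haf_cons]
      simp only [List.length_cons] at hL
      subst hL
      rcases Nat.eq_zero_or_pos l.length with h0 | h0
      · have : l = [] := List.length_eq_zero_iff.mp h0
        subst this
        simp
      · have hterm : ∀ i : Fin l.length, |A a (l.get i) * haf A (l.eraseIdx i)| ≤
            M * (((l.length - 1).factorial : ℝ) * M ^ ((l.length - 1) / 2)) := by
          intro i
          rw [abs_mul]
          exact mul_le_mul (hA _ _) (ih (l.length - 1) (by omega) _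
            (by rw [List.length_eraseIdx_of_lt i.isLt])) (abs_nonneg _) (by linarith)
        calc |∑ i : Fin l.length, A a (l.get i) * haf A (l.eraseIdx i)|
            ≤ ∑ i : Fin l.length, |A a (l.get i) * haf A (l.eraseIdx i)| :=
              Finset.abs_sum_le_sum_abs _ _
          _ ≤ ∑ _i : Fin l.length,
              M * (((l.length - 1).factorial : ℝ) * M ^ ((l.length - 1) / 2)) :=
              Finset.sum_le_sum fun i _ => hterm i
          _ = ((l.length * (l.length - 1).factorial : ℕ) : ℝ) * M ^ ((l.length - 1) / 2 + 1) := by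
              rw [Finset.sum_const, Finset.card_univ, Fintype.card_fin, nsmul_eq_mul]
              push_cast
              ring
          _ ≤ ((l.length + 1).factorial : ℝ) * M ^ ((l.length + 1) / 2) := by
              have e1 : l.length * (l.length - 1).factorial = l.length.factorial :=
                Nat.mul_factorial_pred (by omega)
              have e2 : (l.length - 1) / 2 + 1 = (l.length + 1) / 2 := by omega
              rw [e1, e2]
              apply mul_le_mul_of_nonneg_right _ (by positivity)
              exact_mod_cast Nat.factorial_le (Nat.le_succ _)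

lemma prod_diff {ι : Type*} [DecidableEq ι] (x y : ι → ℝ) {B e : ℝ} (hB : 1 ≤ B) (he : 0 ≤ e)
    (s : Finset ι) (hx : ∀ i ∈ s, |x i| ≤ B) (hy : ∀ i ∈ s, |y i| ≤ B)
    (hxy : ∀ i ∈ s, |x i - y i| ≤ e) :
    |∏ i ∈ s, x i - ∏ i ∈ s, y i| ≤ s.card * B ^ s.card * e := by
  induction s using Finset.induction_on with
  | empty => simp
  | insert a s ha ih =>
    rw [Finset.prod_insert ha, Finset.prod_insert ha, Finset.card_insert_of_notMem ha]
    have h1 := ih (fun i hi => hx i (Finset.mem_insert_of_mem hi))
      (fun i hi => hy i (Finset.mem_insert_of_mem hi))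
      (fun i hi => hxy i (Finset.mem_insert_of_mem hi))
    have h2 : |∏ i ∈ s, y i| ≤ B ^ s.card := by
      rw [Finset.abs_prod, ← Finset.prod_const]
      exact Finset.prod_le_prod (fun i _ => abs_nonneg _)
        fun i hi => hy i (Finset.mem_insert_of_mem hi)
    have h3 := hx a (Finset.mem_insert_self _ _)
    have h4 := hxy a (Finset.mem_insert_self _ _)
    have e1 : x a * ∏ i ∈ s, x i - y a * ∏ i ∈ s, y i =
        x a * (∏ i ∈ s, x i - ∏ i ∈ s, y i) + (x a - y a) * ∏ i ∈ s, y i := by ring
    rw [e1]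
    have hp : (0 : ℝ) ≤ B ^ s.card := by positivity
    calc |x a * (∏ i ∈ s, x i - ∏ i ∈ s, y i) + (x a - y a) * ∏ i ∈ s, y i|
        ≤ |x a| * |∏ i ∈ s, x i - ∏ i ∈ s, y i| + |x a - y a| * |∏ i ∈ s, y i| := by
          rw [← abs_mul, ← abs_mul]; exact abs_add_le _ _
      _ ≤ B * (s.card * B ^ s.card * e) + e * B ^ s.card :=
          add_le_add (mul_le_mul h3 h1 (abs_nonneg _) (by linarith))
            (mul_le_mul h4 h2 (abs_nonneg _) he)
      _ ≤ ((s.card + 1 : ℕ) : ℝ) * B ^ (s.card + 1) * e := by
          push_cast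
          rw [pow_succ]
          have : e * B ^ s.card ≤ e * B ^ s.card * B := by
            have h0 : 0 ≤ e * B ^ s.card := by positivity
            nlinarith
          nlinarith

/-! ### the list of legs -/

lemma legs_prod_aux {k : ℕ} (f : Fin k × Bool → ℝ) (S : Finset (Fin k)) (R : List (Fin k)) :
    ((((R.flatMap fun r => [(r, false), (r, true)]).filter fun u => u.1 ∈ S)).map f).prod =
      ((R.filter fun r => r ∈ S).map fun r => f (r, false) * f (r, true)).prod := by
  induction R with
  | nil => simp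
  | cons r R ih =>
    rw [List.flatMap_cons, List.filter_append, List.map_append, List.prod_append, ih]
    by_cases h : r ∈ S
    · simp [h, mul_assoc]
    · simp [h]

lemma legs_prod {k : ℕ} (f : Fin k × Bool → ℝ) (S : Finset (Fin k)) :
    (((legs k).filter fun u => u.1 ∈ S).map f).prod = ∏ r ∈ S, (f (r, false) * f (r, true)) := by
  unfold legs
  rw [legs_prod_aux, ← List.prod_toFinset _ ((List.nodup_finRange k).filter _)]
  congr 1
  ext r
  simp

lemma legs_length (k : ℕ) : (legs k).length = 2 * k := by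
  unfold legs
  rw [List.length_flatMap]
  simp [mul_comm]

lemma legs_nodup (k : ℕ) : (legs k).Nodup := by
  unfold legs
  rw [List.nodup_flatMap]
  refine ⟨fun r _ => by simp, ?_⟩
  refine (List.nodup_finRange k).imp ?_
  intro r s hrs
  simp only [Function.onFun]
  intro u hu hv
  simp only [List.mem_cons, List.not_mem_nil, or_false] at hu hv
  rcases hu with rfl | rfl <;> rcases hv with h | h <;> exact hrs (congrArg Prod.fst h)

/-! ### the main estimate -/

theorem t_WC (h1 : S_W1) (h2 : S_W2) : S_WC := by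
  intro k
  obtain ⟨C0, hC0, H1⟩ := h1 (2 * k)
  set F : ℝ := ((2 * k).factorial : ℝ) with hF
  have hF0 : 0 ≤ F := by positivity
  refine ⟨2 ^ k * (2 ^ k * (1 + k * F) * C0), by positivity, ?_⟩
  intro Ω _ P _ X A M δ h hN hh hh1
  have hM := hN.one_le
  have hM0 : 0 ≤ M := by linarith
  set e : ℝ := C0 * (δ / h ^ (2 * k) + h ^ 2 * M ^ (2 * k + 2)) with he
  have hδ := hN.nonneg
  have hE0 : 0 ≤ δ / h ^ (2 * k) + h ^ 2 := by positivity
  have he0 : 0 ≤ e := by positivity
  have heE : e ≤ C0 * (M ^ (2 * k + 2) * (δ / h ^ (2 * k) + h ^ 2)) := by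
    rw [he]
    apply mul_le_mul_of_nonneg_left _ hC0.le
    have hMp : 1 ≤ M ^ (2 * k + 2) := one_le_pow₀ hM
    have : 0 ≤ δ / h ^ (2 * k) := by positivity
    nlinarith
  -- integrability
  obtain ⟨B, hB⟩ := hN.bdd
  have hprodint : ∀ S : Finset (Fin k),
      Integrable (fun ω => ∏ r ∈ S, (X (r, false) ω * X (r, true) ω)) P := by
    intro S
    refine Integrable.of_bound (Finset.measurable_prod _ fun r _ =>
      (hN.meas _).mul (hN.meas _)).aestronglyMeasurable (∏ _r ∈ S, (B * B))
      (Eventually.of_forall fun ω => ?_)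
    rw [Real.norm_eq_abs, Finset.abs_prod]
    refine Finset.prod_le_prod (fun i _ => abs_nonneg _) fun r _ => ?_
    rw [abs_mul]
    exact mul_le_mul (hB _ _) (hB _ _) (abs_nonneg _) ((abs_nonneg _).trans (hB (r, false) ω))
  -- notation
  set c : Fin k → ℝ := fun r => ∫ ω', X (r, false) ω' * X (r, true) ω' ∂P with hc
  set T : Finset (Fin k) → ℝ := fun S => ∫ ω, ∏ r ∈ S, (X (r, false) ω * X (r, true) ω) ∂P with hT
  set H : Finset (Fin k) → ℝ := fun S => haf A ((legs k).filter fun u => u.1 ∈ S) with hH
  have hTH : ∀ S, |T S - H S| ≤ e := by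
    intro S
    have := H1 (Fin k × Bool) Ω P X A M δ h hN hh hh1 ((legs k).filter fun u => u.1 ∈ S)
      ((legs_nodup k).filter _)
      ((List.length_filter_le _ _).trans (legs_length k).le)
    simp only [legs_prod] at this
    exact this
  have hca : ∀ r, |c r - A (r, false) (r, true)| ≤ e := by
    intro r
    have hk : 1 ≤ k := by have := r.isLt; omega
    have := H1 (Fin k × Bool) Ω P X A M δ h hN hh hh1 [(r, false), (r, true)] (by simp)
      (by simp; omega)
    simp only [List.map_cons, List.map_nil, List.prod_cons, List.prod_nil, mul_one] at this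
    rw [haf_pair] at this
    exact this
  have hHb : ∀ S, |H S| ≤ F * M ^ k := by
    intro S
    set L := (legs k).filter fun u => u.1 ∈ S with hL
    have hlen : L.length ≤ 2 * k := (List.length_filter_le _ _).trans (legs_length k).le
    refine (haf_bound A hM hN.bound L.length L rfl).trans ?_
    apply mul_le_mul
    · rw [hF]
      exact_mod_cast Nat.factorial_le hlen
    · exact pow_le_pow_right₀ hM (by omega)
    · positivity
    · positivity
  have hcM : ∀ r, |c r| ≤ 2 * M := by
    intro r
    have hk : 1 ≤ k := by have := r.isLt; omega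
    have hint : ∀ l, Integrable (fun ω => |X l ω| ^ (2 * k + 2)) P := by
      intro l
      refine Integrable.of_bound
        ((continuous_abs.measurable.comp (hN.meas l)).pow_const _).aestronglyMeasurable
        (B ^ (2 * k + 2)) (Eventually.of_forall fun ω => ?_)
      rw [Real.norm_eq_abs, abs_of_nonneg (by positivity)]
      exact pow_le_pow_left₀ (abs_nonneg _) (hB l ω) _
    have hx2 : ∀ x : ℝ, |x| ^ 2 ≤ 1 + |x| ^ (2 * k + 2) := by
      intro x
      rcases le_total |x| 1 with hx | hx
      · have h1 : |x| ^ 2 ≤ 1 := pow_le_one₀ (abs_nonneg _) hx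
        have h2 : 0 ≤ |x| ^ (2 * k + 2) := by positivity
        linarith
      · have h1 : |x| ^ 2 ≤ |x| ^ (2 * k + 2) := pow_le_pow_right₀ hx (by omega)
        linarith
    have hpt : ∀ ω, |X (r, false) ω * X (r, true) ω| ≤
        1 + (|X (r, false) ω| ^ (2 * k + 2) + |X (r, true) ω| ^ (2 * k + 2)) / 2 := by
      intro ω
      rw [abs_mul]
      have h1 := hx2 (X (r, false) ω)
      have h2 := hx2 (X (r, true) ω)
      nlinarith [sq_nonneg (|X (r, false) ω| - |X (r, true) ω|)]
    have hI1 : Integrable (fun ω => |X (r, false) ω| ^ (2 * k + 2) +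
        |X (r, true) ω| ^ (2 * k + 2)) P := (hint _).add (hint _)
    have hI2 : Integrable (fun ω => (|X (r, false) ω| ^ (2 * k + 2) +
        |X (r, true) ω| ^ (2 * k + 2)) / 2) P := hI1.div_const 2
    have hI : Integrable (fun ω => 1 + (|X (r, false) ω| ^ (2 * k + 2) +
        |X (r, true) ω| ^ (2 * k + 2)) / 2) P :=
      (integrable_const _).add hI2
    calc |c r| ≤ ∫ ω, |X (r, false) ω * X (r, true) ω| ∂P := abs_integral_le_integral_abs
      _ ≤ ∫ ω, (1 + (|X (r, false) ω| ^ (2 * k + 2) + |X (r, true) ω| ^ (2 * k + 2)) / 2) ∂P := by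
          refine integral_mono_of_nonneg (Eventually.of_forall fun _ => abs_nonneg _) hI
            (Eventually.of_forall hpt)
      _ = 1 + ((∫ ω, |X (r, false) ω| ^ (2 * k + 2) ∂P) +
            ∫ ω, |X (r, true) ω| ^ (2 * k + 2) ∂P) / 2 := by
          rw [integral_add (integrable_const _) hI2, integral_div,
            integral_add (hint _) (hint _)]
          simp
      _ ≤ 2 * M := by
          have h1 := hN.mom (r, false)
          have h2 := hN.mom (r, true)
          linarith
  -- expansion
  have hexp : (∫ ω, ∏ r : Fin k, (X (r, false) ω * X (r, true) ω - c r) ∂P) =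
      ∑ S : Finset (Fin k), (∏ r ∈ Finset.univ \ S, -c r) * T S := by
    have : ∀ ω, ∏ r : Fin k, (X (r, false) ω * X (r, true) ω - c r) =
        ∑ S : Finset (Fin k), (∏ r ∈ Finset.univ \ S, -c r) *
          ∏ r ∈ S, (X (r, false) ω * X (r, true) ω) := by
      intro ω
      simp only [sub_eq_add_neg]
      rw [Finset.prod_add, Finset.powerset_univ]
      exact Finset.sum_congr rfl fun S _ => mul_comm _ _
    simp only [this]
    rw [integral_finsetSum _ fun S _ => (hprodint S).const_mul _]
    exact Finset.sum_congr rfl fun S _ => integral_const_mul _ _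
  rw [hexp, ← h2 k A hN.symm, ← Finset.sum_sub_distrib]
  have hterm : ∀ S : Finset (Fin k), |(∏ r ∈ Finset.univ \ S, -c r) * T S -
      (∏ r ∈ Finset.univ \ S, -A (r, false) (r, true)) * H S| ≤
      (2 * M) ^ k * (M ^ k * ((1 + k * F) * e)) := by
    intro S
    have hcard : (Finset.univ \ S).card ≤ k := by
      simpa using Finset.card_le_univ (Finset.univ \ S)
    have h2M : 1 ≤ 2 * M := by linarith
    have hp1 : |∏ r ∈ Finset.univ \ S, -c r| ≤ (2 * M) ^ k := by
      rw [Finset.abs_prod]
      calc ∏ r ∈ Finset.univ \ S, |-c r| ≤ ∏ _r ∈ Finset.univ \ S, (2 * M) :=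
            Finset.prod_le_prod (fun i _ => abs_nonneg _) fun r _ => by
              rw [abs_neg]; exact hcM r
        _ = (2 * M) ^ (Finset.univ \ S).card := by rw [Finset.prod_const]
        _ ≤ (2 * M) ^ k := pow_le_pow_right₀ h2M hcard
    have hp2 := prod_diff (fun r => -c r) (fun r => -A (r, false) (r, true)) h2M he0
      (Finset.univ \ S) (fun r _ => by rw [abs_neg]; exact hcM r)
      (fun r _ => by rw [abs_neg]; exact (hN.bound _ _).trans (by linarith))
      (fun r _ => by
        have h5 : -c r - -A (r, false) (r, true) = -(c r - A (r, false) (r, true)) := by ring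
        rw [h5, abs_neg]
        exact hca r)
    have hp3 : ((Finset.univ \ S).card : ℝ) * (2 * M) ^ (Finset.univ \ S).card * e ≤
        k * (2 * M) ^ k * e := by
      apply mul_le_mul_of_nonneg_right _ he0
      exact mul_le_mul (by exact_mod_cast hcard) (pow_le_pow_right₀ h2M hcard) (by positivity)
        (by positivity)
    have e1 : (∏ r ∈ Finset.univ \ S, -c r) * T S -
        (∏ r ∈ Finset.univ \ S, -A (r, false) (r, true)) * H S =
        (∏ r ∈ Finset.univ \ S, -c r) * (T S - H S) +
        (∏ r ∈ Finset.univ \ S, -c r - ∏ r ∈ Finset.univ \ S, -A (r, false) (r, true)) * H S := by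
      ring
    have hMk : 1 ≤ M ^ k := one_le_pow₀ hM
    rw [e1]
    calc |(∏ r ∈ Finset.univ \ S, -c r) * (T S - H S) +
        (∏ r ∈ Finset.univ \ S, -c r - ∏ r ∈ Finset.univ \ S, -A (r, false) (r, true)) * H S|
        ≤ |∏ r ∈ Finset.univ \ S, -c r| * |T S - H S| +
          |∏ r ∈ Finset.univ \ S, -c r - ∏ r ∈ Finset.univ \ S, -A (r, false) (r, true)| *
            |H S| := by
          rw [← abs_mul, ← abs_mul]; exact abs_add_le _ _
      _ ≤ (2 * M) ^ k * e + (k * (2 * M) ^ k * e) * (F * M ^ k) :=
          add_le_add (mul_le_mul hp1 (hTH S) (abs_nonneg _) (by positivity))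
            (mul_le_mul (hp2.trans hp3) (hHb S) (abs_nonneg _) (by positivity))
      _ ≤ (2 * M) ^ k * (M ^ k * ((1 + k * F) * e)) := by
          have h0 : 0 ≤ (2 * M) ^ k * e := by positivity
          have h3 : (2 * M) ^ k * e ≤ (2 * M) ^ k * e * M ^ k := by nlinarith
          nlinarith
  calc |∑ S : Finset (Fin k), ((∏ r ∈ Finset.univ \ S, -c r) * T S -
      (∏ r ∈ Finset.univ \ S, -A (r, false) (r, true)) * H S)|
      ≤ ∑ S : Finset (Fin k), |(∏ r ∈ Finset.univ \ S, -c r) * T S -
      (∏ r ∈ Finset.univ \ S, -A (r, false) (r, true)) * H S| := Finset.abs_sum_le_sum_abs _ _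
    _ ≤ ∑ _S : Finset (Fin k), (2 * M) ^ k * (M ^ k * ((1 + k * F) * e)) :=
        Finset.sum_le_sum fun S _ => hterm S
    _ = 2 ^ k * ((2 * M) ^ k * (M ^ k * ((1 + k * F) * e))) := by
        rw [Finset.sum_const, Finset.card_univ, Fintype.card_finset, Fintype.card_fin,
          nsmul_eq_mul]
        push_cast
        ring
    _ ≤ 2 ^ k * ((2 * M) ^ k * (M ^ k * ((1 + k * F) *
          (C0 * (M ^ (2 * k + 2) * (δ / h ^ (2 * k) + h ^ 2)))))) := by
        gcongr
    _ = 2 ^ k * (2 ^ k * (1 + k * F) * C0) * M ^ (4 * k + 2) * (δ / h ^ (2 * k) + h ^ 2) := by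
        have e3 : M ^ (4 * k + 2) = M ^ k * M ^ k * M ^ (2 * k + 2) := by
          rw [← pow_add, ← pow_add]; congr 1; omega
        rw [e3, mul_pow]
        ring
    _ ≤ 2 ^ k * (2 ^ k * (1 + k * F) * C0) * M ^ (4 * k + 4) * (δ / h ^ (2 * k) + h ^ 2) := by
        have : M ^ (4 * k + 2) ≤ M ^ (4 * k + 4) := pow_le_pow_right₀ hM (by omega)
        gcongr

end

end Pool.Agent.W75.SCH
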